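import Pool.Agent.R980.Lift

/-!
# Random lifts of the complete digraph on three vertices are not Hamiltonian

The random `n`-lift of the complete digraph on three vertices (six independent uniformly random
matchings) is Hamiltonian with probability at most `√2 n ^ (√2 - 3/2)`, which tends to `0`.
-/

set_option autoImplicit false

namespace Pool.Agent.Results.MP_ff6929_pr.LiftNotHamiltonian

open Pool.Agent.R980

/-- The probability `probHam n` that the random `n`-lift of the complete digraph on three vertices
is Hamiltonian is at most `√2 n ^ (√2 - 3/2)` for every `n ≥ 1`, and it tends to `0`. -/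
theorem result :
    (∀ n : ℕ, 1 ≤ n → probHam n ≤ Real.sqrt 2 * (n : ℝ) ^ (Real.sqrt 2 - 3 / 2)) ∧
      Filter.Tendsto probHam Filter.atTop (nhds 0) :=
  ⟨probHam_bound, probHam_tendsto⟩

end Pool.Agent.Results.MP_ff6929_pr.LiftNotHamiltonian
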